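import Mathlib
import Pool.Agent.H212R2.KLS.T1

/-!
# Energy identity and its lower bound

For a measurable `h : F → [0,∞]` let `cc h = h * h` (convolution square) and `qq h = h * h~`
(autocorrelation).  Then `∫ (cc h)^2 = ∫ (qq h)^2` (number of solutions of `a + b = c + d`), and if
`h` is log-concave then `∫ (qq h)^2 ≥ 2^(-N) qq h 0 * (∫ h)^2`.
-/

set_option autoImplicit false

namespace Pool.Agent.TH361.MP

open MeasureTheory Set Filter Topology
open scoped ENNReal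

section general

variable {F : Type*} [NormedAddCommGroup F] [NormedSpace ℝ F] [FiniteDimensional ℝ F]
  [MeasurableSpace F] [BorelSpace F] (μ : Measure F) [μ.IsAddHaarMeasure]

/-- autocorrelation -/
noncomputable def qq (h : F → ℝ≥0∞) (y : F) : ℝ≥0∞ := ∫⁻ b, h b * h (b + y) ∂μ

/-- convolution square -/
noncomputable def cc (h : F → ℝ≥0∞) (z : F) : ℝ≥0∞ := ∫⁻ a, h a * h (z - a) ∂μ

lemma cc_sq {h : F → ℝ≥0∞} (hm : Measurable h) :
    ∫⁻ z, cc μ h z ^ 2 ∂μ = ∫⁻ y, qq μ h y ^ 2 ∂μ := by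
  have e1 : ∀ z, cc μ h z ^ 2 =
      ∫⁻ p : F × F, (h p.1 * h (z - p.1)) * (h p.2 * h (z - p.2)) ∂(μ.prod μ) := by
    intro z
    rw [sq, cc]
    rw [← lintegral_prod_mul (μ := μ) (ν := μ) (f := fun a => h a * h (z - a))
      (g := fun a => h a * h (z - a))]
    · exact (by fun_prop : Measurable fun a => h a * h (z - a)).aemeasurable
    · exact (by fun_prop : Measurable fun a => h a * h (z - a)).aemeasurable
  simp_rw [e1]
  rw [lintegral_lintegral_swap (by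
    exact (by fun_prop : Measurable (Function.uncurry fun (z : F) (p : F × F) =>
      (h p.1 * h (z - p.1)) * (h p.2 * h (z - p.2)))).aemeasurable)]
  have e2 : ∀ p : F × F, ∫⁻ z, (h p.1 * h (z - p.1)) * (h p.2 * h (z - p.2)) ∂μ =
      ∫⁻ b, (h p.1 * h b) * (h p.2 * h (b + p.1 - p.2)) ∂μ := by
    intro p
    rw [← lintegral_add_right_eq_self (μ := μ)
      (fun z => (h p.1 * h (z - p.1)) * (h p.2 * h (z - p.2))) p.1]
    simp
  simp_rw [e2]
  have hmm : Measurable fun p : F × F => ∫⁻ b, (h p.1 * h b) * (h p.2 * h (b + p.1 - p.2)) ∂μ := by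
    have : Measurable (Function.uncurry fun (p : F × F) (b : F) =>
      (h p.1 * h b) * (h p.2 * h (b + p.1 - p.2))) := by fun_prop
    exact this.lintegral_prod_right'
  rw [lintegral_prod_symm _ hmm.aemeasurable]
  have e3 : ∀ c : F, ∫⁻ a, ∫⁻ b, (h a * h b) * (h c * h (b + a - c)) ∂μ ∂μ =
      ∫⁻ y, ∫⁻ b, (h (y + c) * h b) * (h c * h (b + y)) ∂μ ∂μ := by
    intro c
    rw [← lintegral_add_right_eq_self (μ := μ)
      (fun a => ∫⁻ b, (h a * h b) * (h c * h (b + a - c)) ∂μ) c]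
    simp [add_sub_assoc]
  simp_rw [e3]
  rw [lintegral_lintegral_swap (by
    have : Measurable (Function.uncurry fun (p : F × F) (b : F) =>
      (h (p.2 + p.1) * h b) * (h p.1 * h (b + p.2))) := by fun_prop
    exact (this.lintegral_prod_right').aemeasurable)]
  refine lintegral_congr fun y => ?_
  have e4 : ∀ c : F, ∫⁻ b, (h (y + c) * h b) * (h c * h (b + y)) ∂μ =
      (h c * h (c + y)) * qq μ h y := by
    intro c
    rw [qq, ← lintegral_const_mul _ (by fun_prop)]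
    refine lintegral_congr fun b => ?_
    rw [add_comm y c]
    ring
  simp_rw [e4]
  rw [lintegral_mul_const _ (by fun_prop), sq, qq]

lemma lintegral_cc {h : F → ℝ≥0∞} (hm : Measurable h) :
    ∫⁻ z, cc μ h z ∂μ = (∫⁻ x, h x ∂μ) ^ 2 := by
  simp_rw [cc]
  rw [lintegral_lintegral_swap (by
    exact (by fun_prop : Measurable (Function.uncurry fun (z a : F) =>
      h a * h (z - a))).aemeasurable)]
  have : ∀ a, ∫⁻ z, h a * h (z - a) ∂μ = h a * ∫⁻ x, h x ∂μ := by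
    intro a
    rw [lintegral_const_mul _ (by fun_prop), lintegral_sub_right_eq_self]
  simp_rw [this]
  rw [lintegral_mul_const _ hm, sq]

lemma lintegral_qq {h : F → ℝ≥0∞} (hm : Measurable h) :
    ∫⁻ y, qq μ h y ∂μ = (∫⁻ x, h x ∂μ) ^ 2 := by
  simp_rw [qq]
  rw [lintegral_lintegral_swap (by
    exact (by fun_prop : Measurable (Function.uncurry fun (y b : F) =>
      h b * h (b + y))).aemeasurable)]
  have : ∀ b, ∫⁻ y, h b * h (b + y) ∂μ = h b * ∫⁻ x, h x ∂μ := by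
    intro b
    rw [lintegral_const_mul _ (by fun_prop), lintegral_add_left_eq_self]
  simp_rw [this]
  rw [lintegral_mul_const _ hm, sq]

/-- scaling of the integral -/
lemma lintegral_smul_arg {f : F → ℝ≥0∞} (hf : Measurable f) {r : ℝ} (hr : 0 < r) :
    ∫⁻ x, f (r • x) ∂μ = ENNReal.ofReal ((r ^ Module.finrank ℝ F)⁻¹) * ∫⁻ x, f x ∂μ := by
  have h1 := Measure.map_addHaar_smul μ hr.ne'
  have h2 : ∫⁻ x, f (r • x) ∂μ = ∫⁻ x, f x ∂(Measure.map (r • ·) μ) := by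
    rw [lintegral_map hf (measurable_const_smul r)]
  rw [h2, h1, lintegral_smul_measure, abs_of_pos (by positivity)]
  rfl

/-- log-concavity of a function with values in `[0,∞]`, at midpoints -/
def MidLog (h : F → ℝ≥0∞) : Prop :=
  ∀ x y : F, h x * h y ≤ h ((2:ℝ)⁻¹ • x + (2:ℝ)⁻¹ • y) ^ 2

lemma qq_mid {h : F → ℝ≥0∞} (hm : Measurable h) (hl : MidLog h) (y : F) :
    qq μ h y * qq μ h 0 ≤ qq μ h ((2:ℝ)⁻¹ • y) ^ 2 := by
  have hPL := Pool.Agent.H212R2.KLS.PL μ (1/2) (by norm_num) (by norm_num)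
    (fun b => h b * h (b + y)) (fun b => h b * h (b + 0))
    (fun b => h b * h (b + (2:ℝ)⁻¹ • y)) (by fun_prop) (by fun_prop) (by fun_prop) (by
      intro x x'
      have e1 : (1 - 1/2 : ℝ) = 1/2 := by norm_num
      rw [e1]
      have k1 := hl x x'
      have k2 := hl (x + y) x'
      have e2 : (2:ℝ)⁻¹ • (x + y) + (2:ℝ)⁻¹ • x' = (1/2:ℝ) • x + (1/2:ℝ) • x' + (2:ℝ)⁻¹ • y := by
        rw [smul_add, one_div]; abel
      have e3 : (2:ℝ)⁻¹ • x + (2:ℝ)⁻¹ • x' = (1/2:ℝ) • x + (1/2:ℝ) • x' := by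
        rw [one_div]
      rw [e2] at k2
      rw [e3] at k1
      rw [← ENNReal.mul_rpow_of_nonneg _ _ (by norm_num : (0:ℝ) ≤ 1/2)]
      have k3 : (h x * h (x + y)) * (h x' * h (x' + 0)) ≤
          (h ((1/2:ℝ) • x + (1/2:ℝ) • x') * h ((1/2:ℝ) • x + (1/2:ℝ) • x' + (2:ℝ)⁻¹ • y)) ^ 2 := by
        rw [add_zero, mul_pow]
        calc (h x * h (x + y)) * (h x' * h x') = (h x * h x') * (h (x + y) * h x') := by ring
          _ ≤ _ := mul_le_mul' k1 k2
      calc ((h x * h (x + y)) * (h x' * h (x' + 0))) ^ (1/2:ℝ) ≤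
          ((h ((1/2:ℝ) • x + (1/2:ℝ) • x') *
            h ((1/2:ℝ) • x + (1/2:ℝ) • x' + (2:ℝ)⁻¹ • y)) ^ 2) ^ (1/2:ℝ) := by gcongr
        _ = _ := by
          rw [← ENNReal.rpow_natCast, ← ENNReal.rpow_mul]
          norm_num)
  have e1 : (1 - 1/2 : ℝ) = 1/2 := by norm_num
  rw [e1, ← ENNReal.mul_rpow_of_nonneg _ _ (by norm_num : (0:ℝ) ≤ 1/2)] at hPL
  have h2 := pow_le_pow_left' hPL 2
  rw [← ENNReal.rpow_natCast (( _ : ℝ≥0∞) ^ (1/2:ℝ)), ← ENNReal.rpow_mul] at h2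
  norm_num at h2
  simpa [qq] using h2

/-- the lower bound of the energy of a log-concave function -/
theorem energy_lower {h : F → ℝ≥0∞} (hm : Measurable h) (hl : MidLog h) :
    ENNReal.ofReal (((2:ℝ) ^ Module.finrank ℝ F)⁻¹) * (qq μ h 0 * (∫⁻ x, h x ∂μ) ^ 2) ≤
      ∫⁻ z, cc μ h z ^ 2 ∂μ := by
  rw [cc_sq μ hm]
  have hqm : Measurable (qq μ h) := by
    have : Measurable (Function.uncurry fun (y b : F) => h b * h (b + y)) := by fun_prop
    exact this.lintegral_prod_right'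
  have h1 : ∫⁻ y, qq μ h y * qq μ h 0 ∂μ ≤ ∫⁻ y, qq μ h ((2:ℝ)⁻¹ • y) ^ 2 ∂μ :=
    lintegral_mono fun y => qq_mid μ hm hl y
  rw [lintegral_mul_const _ hqm, lintegral_qq μ hm,
    lintegral_smul_arg μ (f := fun y => qq μ h y ^ 2) (hqm.pow_const 2)
      (by norm_num : (0:ℝ) < 2⁻¹)] at h1
  calc ENNReal.ofReal (((2:ℝ) ^ Module.finrank ℝ F)⁻¹) * (qq μ h 0 * (∫⁻ x, h x ∂μ) ^ 2)
      = ENNReal.ofReal (((2:ℝ) ^ Module.finrank ℝ F)⁻¹) * ((∫⁻ x, h x ∂μ) ^ 2 * qq μ h 0) := by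
        rw [mul_comm (qq μ h 0)]
    _ ≤ ENNReal.ofReal (((2:ℝ) ^ Module.finrank ℝ F)⁻¹) *
        (ENNReal.ofReal (((2:ℝ)⁻¹ ^ Module.finrank ℝ F)⁻¹) * ∫⁻ y, qq μ h y ^ 2 ∂μ) := by gcongr
    _ = ∫⁻ y, qq μ h y ^ 2 ∂μ := by
        rw [← mul_assoc, ← ENNReal.ofReal_mul (by positivity)]
        have : ((2:ℝ) ^ Module.finrank ℝ F)⁻¹ * ((2:ℝ)⁻¹ ^ Module.finrank ℝ F)⁻¹ = 1 := by
          rw [inv_pow, inv_inv]
          exact inv_mul_cancel₀ (by positivity)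
        rw [this]; simp

end general

end Pool.Agent.TH361.MP
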