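import Mathlib
import Pool.Agent.TH361.MP.A

/-!
# Cones: the key inequality

`N` is an asymmetric norm on `E`, `Co N = {(x,s) : N x ≤ s}` its cone in `E × ℝ`,
`VV z = vol (C ∩ (z - C))`.  If `V z ≤ V0 * (w z)^d` on the cone then
`∫_C exp (-w) ≤ V0 * (27 d / (8 e))^d`.
-/

set_option autoImplicit false
set_option linter.unusedSectionVars false
set_option linter.deprecated false

namespace Pool.Agent.TH361.MP

open MeasureTheory Set Filter Topology
open scoped ENNReal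

/-- an asymmetric norm -/
structure ANorm {E : Type*} [NormedAddCommGroup E] [NormedSpace ℝ E] (N : E → ℝ) : Prop where
  nonneg : ∀ x, 0 ≤ N x
  smul : ∀ (c : ℝ) (x : E), 0 ≤ c → N (c • x) = c * N x
  add : ∀ x y, N (x + y) ≤ N x + N y
  cont : Continuous N
  bdd : Bornology.IsBounded {x | N x ≤ 1}

/-- the cone -/
def Co {E : Type*} (N : E → ℝ) : Set (E × ℝ) := {p | N p.1 ≤ p.2}

section

variable {E : Type*} [NormedAddCommGroup E] [NormedSpace ℝ E] [FiniteDimensional ℝ E]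
  [MeasurableSpace E] [BorelSpace E] {N : E → ℝ}

lemma ANorm.zero (hN : ANorm N) : N 0 = 0 := by
  have := hN.smul 0 0 le_rfl
  simpa using this

lemma Co_closed (hN : ANorm N) : IsClosed (Co N) :=
  isClosed_le (hN.cont.comp continuous_fst) continuous_snd

lemma Co_meas (hN : ANorm N) : MeasurableSet (Co N) := (Co_closed hN).measurableSet

lemma Co_add (hN : ANorm N) {p q : E × ℝ} (hp : p ∈ Co N) (hq : q ∈ Co N) : p + q ∈ Co N := by
  simp only [Co, mem_setOf_eq, Prod.fst_add, Prod.snd_add] at *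
  linarith [hN.add p.1 q.1]

lemma Co_smul (hN : ANorm N) {p : E × ℝ} (hp : p ∈ Co N) {c : ℝ} (hc : 0 ≤ c) :
    c • p ∈ Co N := by
  simp only [Co, mem_setOf_eq, Prod.smul_fst, Prod.smul_snd, smul_eq_mul] at *
  rw [hN.smul c _ hc]
  exact mul_le_mul_of_nonneg_left hp hc

lemma Co_smul_iff (hN : ANorm N) {p : E × ℝ} {c : ℝ} (hc : 0 < c) :
    c • p ∈ Co N ↔ p ∈ Co N := by
  refine ⟨fun h => ?_, fun h => Co_smul hN h hc.le⟩
  have := Co_smul hN h (inv_nonneg.2 hc.le)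
  rwa [smul_smul, inv_mul_cancel₀ hc.ne', one_smul] at this

lemma Co_snd (hN : ANorm N) {p : E × ℝ} (hp : p ∈ Co N) : 0 ≤ p.2 := (hN.nonneg _).trans hp

variable (μ : Measure (E × ℝ))

/-- volume of the order interval `[0, z]` -/
noncomputable def VV (N : E → ℝ) (z : E × ℝ) : ℝ≥0∞ := μ {p | p ∈ Co N ∧ z - p ∈ Co N}

/-- exponential density on the cone -/
noncomputable def hh (N : E → ℝ) (w : E × ℝ →L[ℝ] ℝ) (p : E × ℝ) : ℝ≥0∞ :=
  (Co N).indicator (fun p => ENNReal.ofReal (Real.exp (-(w p)))) p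

lemma hh_meas (hN : ANorm N) (w : E × ℝ →L[ℝ] ℝ) : Measurable (hh N w) := by
  unfold hh
  refine Measurable.indicator ?_ (Co_meas hN)
  fun_prop

lemma hh_mul (w : E × ℝ →L[ℝ] ℝ) (a b : E × ℝ) :
    hh N w a * hh N w b = {p : (E × ℝ) × (E × ℝ) | p.1 ∈ Co N ∧ p.2 ∈ Co N}.indicator
      (fun p => ENNReal.ofReal (Real.exp (-(w (p.1 + p.2))))) (a, b) := by
  unfold hh
  by_cases ha : a ∈ Co N
  · by_cases hb : b ∈ Co N
    · rw [indicator_of_mem ha, indicator_of_mem hb, indicator_of_mem (by exact ⟨ha, hb⟩),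
        ← ENNReal.ofReal_mul (Real.exp_pos _).le, ← Real.exp_add]
      congr 2
      rw [map_add]; ring
    · rw [indicator_of_notMem hb, mul_zero, indicator_of_notMem (by rintro ⟨_, h⟩; exact hb h)]
  · rw [indicator_of_notMem ha, zero_mul, indicator_of_notMem (by rintro ⟨h, _⟩; exact ha h)]

lemma cc_hh (hN : ANorm N) (w : E × ℝ →L[ℝ] ℝ) (z : E × ℝ) :
    cc μ (hh N w) z = VV μ N z * ENNReal.ofReal (Real.exp (-(w z))) := by
  unfold cc VV
  have hms : MeasurableSet {p : E × ℝ | p ∈ Co N ∧ z - p ∈ Co N} := by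
    have h1 : MeasurableSet ((fun p : E × ℝ => z - p) ⁻¹' Co N) :=
      (by fun_prop : Measurable fun p : E × ℝ => z - p) (Co_meas hN)
    exact (Co_meas hN).inter h1
  have e : ∀ a, hh N w a * hh N w (z - a) =
      {p : E × ℝ | p ∈ Co N ∧ z - p ∈ Co N}.indicator
        (fun _ => ENNReal.ofReal (Real.exp (-(w z)))) a := by
    intro a
    rw [hh_mul]
    by_cases ha : a ∈ Co N ∧ z - a ∈ Co N
    · rw [indicator_of_mem (by exact ha), indicator_of_mem (by exact ha)]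
      simp
    · rw [indicator_of_notMem (by exact ha), indicator_of_notMem (by exact ha)]
  simp_rw [e]
  rw [lintegral_indicator_const hms, mul_comm]

lemma hh_midLog (hN : ANorm N) (w : E × ℝ →L[ℝ] ℝ) : MidLog (hh N w) := by
  intro x y
  rw [hh_mul]
  by_cases h : x ∈ Co N ∧ y ∈ Co N
  · rw [indicator_of_mem (by exact h)]
    have hm : (2:ℝ)⁻¹ • x + (2:ℝ)⁻¹ • y ∈ Co N :=
      Co_add hN (Co_smul hN h.1 (by norm_num)) (Co_smul hN h.2 (by norm_num))
    rw [hh, indicator_of_mem hm, sq, ← ENNReal.ofReal_mul (Real.exp_pos _).le, ← Real.exp_add]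
    refine le_of_eq ?_
    congr 2
    simp only [map_add, map_smul, smul_eq_mul]
    ring
  · rw [indicator_of_notMem (by exact h)]
    exact zero_le

lemma hh_smul (hN : ANorm N) (w : E × ℝ →L[ℝ] ℝ) {c : ℝ} (hc : 0 < c) (p : E × ℝ) :
    hh N (c • w) p = hh N w (c • p) := by
  unfold hh
  by_cases hp : p ∈ Co N
  · rw [indicator_of_mem hp, indicator_of_mem ((Co_smul_iff hN hc).2 hp)]
    simp
  · rw [indicator_of_notMem hp, indicator_of_notMem (fun h => hp ((Co_smul_iff hN hc).1 h))]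

variable [μ.IsAddHaarMeasure]

lemma int_hh_smul (hN : ANorm N) (w : E × ℝ →L[ℝ] ℝ) {c : ℝ} (hc : 0 < c) :
    ∫⁻ p, hh N (c • w) p ∂μ =
      ENNReal.ofReal ((c ^ Module.finrank ℝ (E × ℝ))⁻¹) * ∫⁻ p, hh N w p ∂μ := by
  simp_rw [hh_smul hN w hc]
  exact lintegral_smul_arg μ (hh_meas hN w) hc

lemma qq_zero (hN : ANorm N) (w : E × ℝ →L[ℝ] ℝ) :
    qq μ (hh N w) 0 =
      ENNReal.ofReal (((2:ℝ) ^ Module.finrank ℝ (E × ℝ))⁻¹) * ∫⁻ p, hh N w p ∂μ := by
  unfold qq
  rw [← lintegral_smul_arg μ (hh_meas hN w) (by norm_num : (0:ℝ) < 2)]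
  refine lintegral_congr fun b => ?_
  rw [add_zero, hh_mul]
  by_cases hb : b ∈ Co N
  · rw [indicator_of_mem (by exact ⟨hb, hb⟩), hh,
      indicator_of_mem (Co_smul hN hb (by norm_num)), two_smul]
  · rw [indicator_of_notMem (by rintro ⟨h, _⟩; exact hb h), hh,
      indicator_of_notMem (fun h => hb ((Co_smul_iff hN (by norm_num)).1 h))]

lemma VV_eq_zero (hN : ANorm N) {z : E × ℝ} (hz : z ∉ Co N) : VV μ N z = 0 := by
  unfold VV
  have : {p : E × ℝ | p ∈ Co N ∧ z - p ∈ Co N} = ∅ := by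
    ext p
    simp only [mem_setOf_eq, mem_empty_iff_false, iff_false]
    rintro ⟨h1, h2⟩
    apply hz
    have := Co_add hN h1 h2
    simpa using this
  rw [this, measure_empty]

lemma pow_exp_le {d : ℕ} (hd : 1 ≤ d) {u : ℝ} (hu : 0 ≤ u) :
    u ^ d * Real.exp (-(2 * u)) ≤
      (3 * d / (2 * Real.exp 1)) ^ d * Real.exp (-((4/3) * u)) := by
  have hd0 : (0:ℝ) < d := by exact_mod_cast hd
  set x : ℝ := 2 * u / (3 * d) with hx
  have hx0 : 0 ≤ x := by positivity
  have h1 : x * Real.exp (-x) ≤ Real.exp (-1) := by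
    have h2 := Real.add_one_le_exp (x - 1)
    have h3 : x ≤ Real.exp (x - 1) := by linarith
    calc x * Real.exp (-x) ≤ Real.exp (x - 1) * Real.exp (-x) := by gcongr
      _ = Real.exp (-1) := by rw [← Real.exp_add]; congr 1; ring
  have h2 : u * Real.exp (-x) ≤ 3 * d / (2 * Real.exp 1) := by
    have e1 : u = (3 * d / 2) * x := by rw [hx]; field_simp
    calc u * Real.exp (-x) = (3 * d / 2) * (x * Real.exp (-x)) := by rw [e1]; ring
      _ ≤ (3 * d / 2) * Real.exp (-1) := by gcongr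
      _ = 3 * d / (2 * Real.exp 1) := by rw [Real.exp_neg]; field_simp
  have h3 : u ^ d * Real.exp (-((2/3) * u)) ≤ (3 * d / (2 * Real.exp 1)) ^ d := by
    have e2 : Real.exp (-((2/3) * u)) = Real.exp (-x) ^ d := by
      rw [← Real.exp_nat_mul]
      congr 1
      rw [hx]; field_simp
    rw [e2, ← mul_pow]
    gcongr
  calc u ^ d * Real.exp (-(2 * u)) =
      (u ^ d * Real.exp (-((2/3) * u))) * Real.exp (-((4/3) * u)) := by
        rw [mul_assoc, ← Real.exp_add]; congr 2; ring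
    _ ≤ _ := by gcongr

/-- the key inequality -/
theorem key (hN : ANorm N) (w : E × ℝ →L[ℝ] ℝ) (hw : ∀ p ∈ Co N, 0 ≤ w p) (V0 : ℝ≥0∞)
    (hV : ∀ z ∈ Co N, VV μ N z ≤ V0 * ENNReal.ofReal (w z ^ Module.finrank ℝ (E × ℝ)))
    (hZ : ∫⁻ p, hh N w p ∂μ ≠ ∞) :
    ∫⁻ p, hh N w p ∂μ ≤ V0 * ENNReal.ofReal
      ((27 * Module.finrank ℝ (E × ℝ) / (8 * Real.exp 1)) ^ Module.finrank ℝ (E × ℝ)) := by
  set d := Module.finrank ℝ (E × ℝ) with hd
  have hd1 : 1 ≤ d := by
    rw [hd, Module.finrank_prod, Module.finrank_self]; omega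
  have hd0 : (0:ℝ) < d := by exact_mod_cast hd1
  set Z := ∫⁻ p, hh N w p ∂μ with hZdef
  by_cases hZ0 : Z = 0
  · rw [hZ0]; exact zero_le
  have hlow := energy_lower μ (hh_meas hN w) (hh_midLog hN w)
  rw [qq_zero μ hN w, ← hd, ← hZdef] at hlow
  set c1 : ℝ := (3 * d / (2 * Real.exp 1)) ^ d with hc1
  have hc10 : 0 ≤ c1 := by positivity
  have hup : ∀ z, cc μ (hh N w) z ^ 2 ≤
      V0 * ENNReal.ofReal c1 * cc μ (hh N ((4/3:ℝ) • w)) z := by
    intro z
    rw [cc_hh μ hN, cc_hh μ hN]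
    by_cases hz : z ∈ Co N
    · have hwz := hw z hz
      calc (VV μ N z * ENNReal.ofReal (Real.exp (-(w z)))) ^ 2
          = VV μ N z * (VV μ N z * ENNReal.ofReal (Real.exp (-(2 * w z)))) := by
            rw [mul_pow, sq, sq, ← ENNReal.ofReal_mul (Real.exp_pos _).le, ← Real.exp_add,
              mul_assoc]
            congr 4; ring
        _ ≤ (V0 * ENNReal.ofReal (w z ^ d)) *
            (VV μ N z * ENNReal.ofReal (Real.exp (-(2 * w z)))) := by
            gcongr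
            exact hV z hz
        _ = V0 * ENNReal.ofReal (w z ^ d * Real.exp (-(2 * w z))) * VV μ N z := by
            rw [ENNReal.ofReal_mul (by positivity)]; ring
        _ ≤ V0 * ENNReal.ofReal (c1 * Real.exp (-((4/3) * w z))) * VV μ N z := by
            exact mul_le_mul' (mul_le_mul' le_rfl
              (ENNReal.ofReal_le_ofReal (pow_exp_le hd1 hwz))) le_rfl
        _ = V0 * ENNReal.ofReal c1 *
            (VV μ N z * ENNReal.ofReal (Real.exp (-(((4/3:ℝ) • w) z)))) := by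
            rw [ENNReal.ofReal_mul hc10]
            simp only [ContinuousLinearMap.smul_apply, smul_eq_mul]
            ring
    · rw [VV_eq_zero μ hN hz]; simp
  have hup2 : ∫⁻ z, cc μ (hh N w) z ^ 2 ∂μ ≤
      V0 * ENNReal.ofReal c1 * (ENNReal.ofReal (((4/3:ℝ) ^ d)⁻¹) * Z) ^ 2 := by
    calc ∫⁻ z, cc μ (hh N w) z ^ 2 ∂μ ≤
        ∫⁻ z, V0 * ENNReal.ofReal c1 * cc μ (hh N ((4/3:ℝ) • w)) z ∂μ :=
          lintegral_mono hup
      _ = V0 * ENNReal.ofReal c1 * ∫⁻ z, cc μ (hh N ((4/3:ℝ) • w)) z ∂μ := by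
          rw [lintegral_const_mul]
          have : Measurable (Function.uncurry fun (z a : E × ℝ) =>
              hh N ((4/3:ℝ) • w) a * hh N ((4/3:ℝ) • w) (z - a)) := by
            have hmm := hh_meas hN ((4/3:ℝ) • w)
            fun_prop
          exact this.lintegral_prod_right'
      _ = _ := by
          rw [lintegral_cc μ (hh_meas hN _), int_hh_smul μ hN w (by norm_num), ← hd, ← hZdef]
  have hall := hlow.trans hup2
  -- cancel `Z ^ 2`
  have hall2 : Z * Z ^ 2 ≤ (V0 * ENNReal.ofReal ((27 * d / (8 * Real.exp 1)) ^ d)) * Z ^ 2 := by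
    have h4 : ENNReal.ofReal ((4:ℝ) ^ d) * (ENNReal.ofReal (((2:ℝ) ^ d)⁻¹) *
        (ENNReal.ofReal (((2:ℝ) ^ d)⁻¹) * Z * Z ^ 2)) = Z * Z ^ 2 := by
      rw [← mul_assoc, ← mul_assoc, ← mul_assoc, ← ENNReal.ofReal_mul (by positivity),
        ← ENNReal.ofReal_mul (by positivity)]
      have : (4:ℝ) ^ d * (2 ^ d)⁻¹ * (2 ^ d)⁻¹ = 1 := by
        have : (4:ℝ) ^ d = 2 ^ d * 2 ^ d := by rw [← mul_pow]; norm_num
        rw [this]; field_simp
      rw [this]; simp
    have h5 := mul_le_mul_right hall (ENNReal.ofReal ((4:ℝ) ^ d))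
    rw [h4] at h5
    refine h5.trans (le_of_eq ?_)
    rw [mul_pow, ← ENNReal.ofReal_pow (by positivity)]
    have e5 : (27 * (d:ℝ) / (8 * Real.exp 1)) ^ d = (4:ℝ) ^ d * c1 * (((4/3:ℝ) ^ d)⁻¹) ^ 2 := by
      rw [hc1, ← inv_pow, ← pow_mul, mul_comm d 2, pow_mul, ← mul_pow, ← mul_pow]
      congr 1
      field_simp
      norm_num
    rw [e5, ENNReal.ofReal_mul (by positivity), ENNReal.ofReal_mul (by positivity)]
    ring
  have hZ2 : Z ^ 2 ≠ 0 := by simpa using hZ0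
  have hZ3 : Z ^ 2 ≠ ∞ := ENNReal.pow_ne_top hZ
  exact (ENNReal.mul_le_mul_iff_left hZ2 hZ3).1 hall2

end

end Pool.Agent.TH361.MP
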