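import Mathlib
import Pool.Agent.TH361.MP.B

/-!
# The supporting functional of `z ↦ vol (C ∩ (z - C))` at `e = (0, 1)`
-/

set_option autoImplicit false
set_option linter.unusedSectionVars false
set_option linter.deprecated false

namespace Pool.Agent.TH361.MP

open MeasureTheory Set Filter Topology
open scoped ENNReal Pointwise

section

variable {E : Type*} [NormedAddCommGroup E] [NormedSpace ℝ E] [FiniteDimensional ℝ E]
  [MeasurableSpace E] [BorelSpace E] {N : E → ℝ}
  (μ : Measure (E × ℝ)) [μ.IsAddHaarMeasure]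

/-- the order interval -/
def OI (N : E → ℝ) (z : E × ℝ) : Set (E × ℝ) := {p | p ∈ Co N ∧ z - p ∈ Co N}

lemma VV_def (z : E × ℝ) : VV μ N z = μ (OI N z) := rfl

lemma OI_closed (hN : ANorm N) (z : E × ℝ) : IsClosed (OI N z) := by
  have h1 : IsClosed ((fun p : E × ℝ => z - p) ⁻¹' Co N) :=
    (Co_closed hN).preimage (by fun_prop)
  exact (Co_closed hN).inter h1

lemma OI_meas (hN : ANorm N) (z : E × ℝ) : MeasurableSet (OI N z) := (OI_closed hN z).measurableSet

lemma VV_smul (hN : ANorm N) {c : ℝ} (hc : 0 < c) (z : E × ℝ) :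
    VV μ N (c • z) = ENNReal.ofReal (c ^ Module.finrank ℝ (E × ℝ)) * VV μ N z := by
  rw [VV_def, VV_def]
  have : OI N (c • z) = c • OI N z := by
    ext p
    rw [mem_smul_set_iff_inv_smul_mem₀ hc.ne']
    simp only [OI, mem_setOf_eq]
    rw [Co_smul_iff hN (inv_pos.2 hc)]
    have : z - c⁻¹ • p = c⁻¹ • (c • z - p) := by
      rw [smul_sub, smul_smul, inv_mul_cancel₀ hc.ne', one_smul]
    rw [this, Co_smul_iff hN (inv_pos.2 hc)]
  rw [this, Measure.addHaar_smul, abs_of_pos (by positivity)]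

lemma VV_mono (hN : ANorm N) {z z' : E × ℝ} (h : z - z' ∈ Co N) : VV μ N z' ≤ VV μ N z := by
  refine measure_mono fun p hp => ⟨hp.1, ?_⟩
  have := Co_add hN h hp.2
  have e : z - z' + (z' - p) = z - p := by abel
  rwa [e] at this

lemma VV_geo (hN : ANorm N) {t : ℝ} (ht0 : 0 < t) (ht1 : t < 1) (z z' : E × ℝ) :
    VV μ N z ^ (1 - t) * VV μ N z' ^ t ≤ VV μ N ((1 - t) • z + t • z') := by
  have hPL := Pool.Agent.H212R2.KLS.PL μ t ht0 ht1 ((OI N z).indicator 1)
    ((OI N z').indicator 1) ((OI N ((1 - t) • z + t • z')).indicator 1)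
    (measurable_one.indicator (OI_meas hN _)) (measurable_one.indicator (OI_meas hN _))
    (measurable_one.indicator (OI_meas hN _)) (by
      intro x y
      by_cases hx : x ∈ OI N z
      · by_cases hy : y ∈ OI N z'
        · have hm : (1 - t) • x + t • y ∈ OI N ((1 - t) • z + t • z') := by
            refine ⟨Co_add hN (Co_smul hN hx.1 (by linarith)) (Co_smul hN hy.1 ht0.le), ?_⟩
            have h1 := Co_add hN (Co_smul hN hx.2 (by linarith : (0:ℝ) ≤ 1 - t))
              (Co_smul hN hy.2 ht0.le)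
            have e : (1 - t) • (z - x) + t • (z' - y) =
                (1 - t) • z + t • z' - ((1 - t) • x + t • y) := by
              rw [smul_sub, smul_sub]; abel
            rwa [e] at h1
          rw [indicator_of_mem hx, indicator_of_mem hy, indicator_of_mem hm]
          simp
        · rw [indicator_of_notMem hy, ENNReal.zero_rpow_of_pos ht0, mul_zero]
          exact zero_le
      · rw [indicator_of_notMem hx, ENNReal.zero_rpow_of_pos (by linarith), zero_mul]
        exact zero_le)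
  rw [lintegral_indicator_one (OI_meas hN _), lintegral_indicator_one (OI_meas hN _),
    lintegral_indicator_one (OI_meas hN _)] at hPL
  exact hPL

lemma N_bdd (hN : ANorm N) (r : ℝ) : Bornology.IsBounded {x | N x ≤ r} := by
  set s : ℝ := max r 1 with hs
  have hs0 : 0 < s := lt_of_lt_of_le one_pos (le_max_right _ _)
  refine (hN.bdd.smul₀ s).subset fun x hx => ?_
  rw [mem_smul_set_iff_inv_smul_mem₀ hs0.ne', mem_setOf_eq, hN.smul _ _ (inv_nonneg.2 hs0.le)]
  rw [mem_setOf_eq] at hx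
  have : N x ≤ s := hx.trans (le_max_left _ _)
  calc s⁻¹ * N x ≤ s⁻¹ * s := by gcongr
    _ = 1 := inv_mul_cancel₀ hs0.ne'

lemma N_pos (hN : ANorm N) {x : E} (hx : N x ≤ 0) : x = 0 := by
  by_contra hne
  obtain ⟨R, hR⟩ := hN.bdd.exists_norm_le
  have hx' : 0 < ‖x‖ := norm_pos_iff.2 hne
  have hR0 : 0 ≤ R := (norm_nonneg _).trans (hR 0 (by
    rw [mem_setOf_eq, hN.zero]; norm_num))
  have h1 := hR (((R + 1) / ‖x‖) • x) (by
    rw [mem_setOf_eq, hN.smul _ _ (by positivity)]
    have : (R + 1) / ‖x‖ * N x ≤ 0 := mul_nonpos_of_nonneg_of_nonpos (by positivity) hx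
    linarith)
  rw [norm_smul, Real.norm_of_nonneg (by positivity), div_mul_cancel₀ _ hx'.ne'] at h1
  linarith

lemma OI_bdd (hN : ANorm N) (z : E × ℝ) : Bornology.IsBounded (OI N z) := by
  have h1 := (N_bdd hN z.2).prod (Metric.isBounded_Icc (0:ℝ) z.2)
  refine h1.subset fun p hp => ?_
  have h2 := Co_snd hN hp.1
  have h3 := Co_snd hN hp.2
  have h4 : N p.1 ≤ p.2 := hp.1
  rw [Prod.snd_sub] at h3
  exact ⟨by rw [mem_setOf_eq]; linarith, ⟨h2, by linarith⟩⟩

lemma VV_lt_top (hN : ANorm N) (z : E × ℝ) : VV μ N z < ∞ := by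
  have h1 : IsCompact (OI N z) := Metric.isCompact_of_isClosed_isBounded (OI_closed hN z)
    (OI_bdd hN z)
  exact h1.measure_lt_top

lemma VV_e_pos (hN : ANorm N) : 0 < VV μ N (0, 1) := by
  rw [VV_def]
  set U : Set (E × ℝ) := {p | N p.1 < p.2 ∧ N (-p.1) < 1 - p.2} with hU
  have hUo : IsOpen U := by
    refine (isOpen_lt (hN.cont.comp continuous_fst) continuous_snd).inter
      (isOpen_lt (hN.cont.comp (continuous_fst.neg)) (continuous_const.sub continuous_snd))
  have hUn : U.Nonempty := ⟨(0, 1/2), by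
    rw [hU, mem_setOf_eq]; simp [hN.zero]; norm_num⟩
  refine lt_of_lt_of_le (hUo.measure_pos μ hUn) (measure_mono fun p hp => ?_)
  rw [hU, mem_setOf_eq] at hp
  refine ⟨hp.1.le, ?_⟩
  simp only [Co, mem_setOf_eq, Prod.fst_sub, Prod.snd_sub, zero_sub]
  exact hp.2.le

/-- **the supporting functional** -/
theorem exists_functional (hN : ANorm N) : ∃ w : E × ℝ →L[ℝ] ℝ, (∀ p ∈ Co N, 0 ≤ w p) ∧
    w (0, 1) = 1 ∧ ∀ z ∈ Co N, ∀ m : ℝ, w z < m →
      VV μ N z ≤ ENNReal.ofReal (m ^ Module.finrank ℝ (E × ℝ)) * VV μ N (0, 1) := by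
  set d := Module.finrank ℝ (E × ℝ) with hd
  have hd1 : 1 ≤ d := by
    rw [hd, Module.finrank_prod, Module.finrank_self]; omega
  set e : E × ℝ := (0, 1) with he
  have hv0 : VV μ N e ≠ 0 := (VV_e_pos μ hN).ne'
  have hv1 : VV μ N e ≠ ∞ := (VV_lt_top μ hN e).ne
  set A : Set (E × ℝ) := {z | VV μ N e < VV μ N z} with hA
  have hAc : Convex ℝ A := by
    intro x hx y hy a b ha hb hab
    rcases eq_or_lt_of_le ha with rfl | ha'
    · have : b = 1 := by linarith
      subst this; simpa using hy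
    rcases eq_or_lt_of_le hb with rfl | hb'
    · have : a = 1 := by linarith
      subst this; simpa using hx
    have h1 := VV_geo μ hN hb' (by linarith : b < 1) x y
    have e1 : 1 - b = a := by linarith
    rw [e1] at h1
    refine lt_of_lt_of_le ?_ h1
    calc VV μ N e = VV μ N e ^ a * VV μ N e ^ b := by
          rw [← ENNReal.rpow_add _ _ hv0 hv1, hab, ENNReal.rpow_one]
      _ < VV μ N x ^ a * VV μ N y ^ b :=
          ENNReal.mul_lt_mul (ENNReal.rpow_lt_rpow hx ha') (ENNReal.rpow_lt_rpow hy hb')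
  have hAsub : ∀ c ∈ Co N, (3/2:ℝ) • e + c ∈ A := by
    intro c hc
    have h1 : VV μ N ((3/2:ℝ) • e) ≤ VV μ N ((3/2:ℝ) • e + c) :=
      VV_mono μ hN (by simpa using hc)
    rw [VV_smul μ hN (by norm_num)] at h1
    refine lt_of_lt_of_le ?_ h1
    have h2 : (1:ℝ≥0∞) < ENNReal.ofReal ((3/2:ℝ) ^ d) := by
      rw [ENNReal.one_lt_ofReal]
      exact one_lt_pow₀ (by norm_num) (by omega)
    calc VV μ N e = 1 * VV μ N e := (one_mul _).symm
      _ < _ := by
        rw [← hd]
        exact ENNReal.mul_lt_mul_left hv0 hv1 h2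
  have hint : (2:ℝ) • e ∈ interior A := by
    rw [mem_interior]
    refine ⟨{z | N z.1 < z.2 - 3/2}, fun z hz => ?_, ?_, ?_⟩
    · have h1 : z - (3/2:ℝ) • e ∈ Co N := by
        rw [mem_setOf_eq] at hz
        simp only [Co, mem_setOf_eq, he, Prod.fst_sub, Prod.snd_sub, Prod.smul_fst, Prod.smul_snd,
          smul_zero, sub_zero, smul_eq_mul, mul_one]
        exact hz.le
      have h2 := hAsub _ h1
      simpa using h2
    · exact isOpen_lt (hN.cont.comp continuous_fst) (continuous_snd.sub continuous_const)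
    · simp [he, hN.zero]; norm_num
  have heA : e ∉ interior A := by
    intro h
    have h1 : e ∈ A := interior_subset h
    rw [hA, mem_setOf_eq] at h1
    exact lt_irrefl _ h1
  obtain ⟨f, hf⟩ := geometric_hahn_banach_open_point hAc.interior isOpen_interior heA
  have hf2 : ∀ a ∈ A, f a ≤ f e := by
    intro a ha
    have hcl : closure (interior A) = closure A :=
      hAc.closure_interior_eq_closure_of_nonempty_interior ⟨_, hint⟩
    have h1 : a ∈ closure (interior A) := by rw [hcl]; exact subset_closure ha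
    have h2 : closure (interior A) ⊆ {x | f x ≤ f e} :=
      closure_minimal (fun x hx => (hf x hx).le) (isClosed_le f.continuous continuous_const)
    exact h2 h1
  have hfe : f e < 0 := by
    have h1 := hf _ hint
    rw [map_smul, smul_eq_mul] at h1
    linarith
  have hfC : ∀ c ∈ Co N, f c ≤ 0 := by
    intro c hc
    by_contra hcon
    push Not at hcon
    have h1 := hf2 _ (hAsub _ (Co_smul hN hc (c := (-(f e) + 1) / f c)
      (div_nonneg (by linarith) hcon.le)))
    rw [map_add, map_smul, map_smul, smul_eq_mul, smul_eq_mul, div_mul_cancel₀ _ hcon.ne'] at h1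
    linarith
  refine ⟨(f e)⁻¹ • f, ?_, ?_, ?_⟩
  · intro p hp
    rw [ContinuousLinearMap.smul_apply, smul_eq_mul]
    exact mul_nonneg_of_nonpos_of_nonpos (inv_nonpos.2 hfe.le) (hfC p hp)
  · rw [ContinuousLinearMap.smul_apply, smul_eq_mul]
    exact inv_mul_cancel₀ hfe.ne
  · intro z hz m hm
    have hw0 : 0 ≤ ((f e)⁻¹ • f) z := by
      rw [ContinuousLinearMap.smul_apply, smul_eq_mul]
      exact mul_nonneg_of_nonpos_of_nonpos (inv_nonpos.2 hfe.le) (hfC z hz)
    have hm0 : 0 < m := lt_of_le_of_lt hw0 hm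
    have e1 : z = m • (m⁻¹ • z) := by rw [smul_smul, mul_inv_cancel₀ hm0.ne', one_smul]
    have h1 : m⁻¹ • z ∉ A := by
      intro hmem
      have h2 := hf2 _ hmem
      rw [map_smul, smul_eq_mul] at h2
      rw [ContinuousLinearMap.smul_apply, smul_eq_mul] at hm
      -- `f z / m ≤ f e < 0`, so `f z / f e ≥ m`
      have h3 : (f e)⁻¹ * (m⁻¹ * f z) ≥ (f e)⁻¹ * f e :=
        mul_le_mul_of_nonpos_left h2 (inv_nonpos.2 hfe.le)
      rw [inv_mul_cancel₀ hfe.ne] at h3
      have h4 : (f e)⁻¹ * (m⁻¹ * f z) = m⁻¹ * ((f e)⁻¹ * f z) := by ring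
      rw [h4] at h3
      have h5 : m⁻¹ * ((f e)⁻¹ * f z) < m⁻¹ * m := by
        exact mul_lt_mul_of_pos_left hm (inv_pos.2 hm0)
      rw [inv_mul_cancel₀ hm0.ne'] at h5
      linarith
    have h2 : VV μ N (m⁻¹ • z) ≤ VV μ N e := not_lt.1 h1
    calc VV μ N z = VV μ N (m • (m⁻¹ • z)) := by rw [← e1]
      _ = ENNReal.ofReal (m ^ d) * VV μ N (m⁻¹ • z) := VV_smul μ hN hm0 _
      _ ≤ _ := by gcongr

lemma VV_zero (hN : ANorm N) : VV μ N 0 = 0 := by
  obtain ⟨w, -, -, hw⟩ := exists_functional μ hN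
  have h0 : (0 : E × ℝ) ∈ Co N := by simp [Co, hN.zero]
  have h1 := VV_smul μ hN (by norm_num : (0:ℝ) < 2) (0 : E × ℝ)
  rw [smul_zero] at h1
  by_contra hne
  have hd1 : 1 ≤ Module.finrank ℝ (E × ℝ) := by
    rw [Module.finrank_prod, Module.finrank_self]; omega
  have h2 : (1:ℝ≥0∞) < ENNReal.ofReal ((2:ℝ) ^ Module.finrank ℝ (E × ℝ)) := by
    rw [ENNReal.one_lt_ofReal]
    exact one_lt_pow₀ (by norm_num) (by omega)
  have h3 : 1 * VV μ N 0 < ENNReal.ofReal ((2:ℝ) ^ Module.finrank ℝ (E × ℝ)) * VV μ N 0 :=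
    ENNReal.mul_lt_mul_left hne (VV_lt_top μ hN 0).ne h2
  rw [← h1, one_mul] at h3
  exact lt_irrefl _ h3

/-- the perturbed functional satisfies the hypothesis of `key` -/
theorem exists_functional' (hN : ANorm N) {ε : ℝ} (hε : 0 < ε) : ∃ w : E × ℝ →L[ℝ] ℝ,
    (∀ p ∈ Co N, ε * p.2 ≤ w p) ∧ w (0, 1) = 1 + ε ∧ ∀ z ∈ Co N,
      VV μ N z ≤ VV μ N (0, 1) * ENNReal.ofReal (w z ^ Module.finrank ℝ (E × ℝ)) := by
  obtain ⟨w, hw1, hw2, hw3⟩ := exists_functional μ hN
  refine ⟨w + ε • ContinuousLinearMap.snd ℝ E ℝ, ?_, ?_, ?_⟩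
  · intro p hp
    simp only [ContinuousLinearMap.add_apply, ContinuousLinearMap.smul_apply,
      ContinuousLinearMap.coe_snd', smul_eq_mul]
    linarith [hw1 p hp]
  · simp [hw2]
  · intro z hz
    by_cases hz0 : z = 0
    · rw [hz0, VV_zero μ hN]; exact zero_le
    · have hz2 : 0 < z.2 := by
        rcases eq_or_lt_of_le (Co_snd hN hz) with h | h
        · exfalso
          have h1 : N z.1 ≤ 0 := by
            have : N z.1 ≤ z.2 := hz
            rwa [← h] at this
          exact hz0 (Prod.ext (N_pos hN h1) h.symm)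
        · exact h
      rw [mul_comm]
      refine hw3 z hz _ ?_
      simp only [ContinuousLinearMap.add_apply, ContinuousLinearMap.smul_apply,
        ContinuousLinearMap.coe_snd', smul_eq_mul]
      have := mul_pos hε hz2
      linarith

end

end Pool.Agent.TH361.MP
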