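import Mathlib
import Pool.Agent.TH361.MP.C

/-!
# Lower bound for `∫_C exp (-w)` and upper bound for `vol (C ∩ (e - C))`
-/

set_option autoImplicit false
set_option linter.unusedSectionVars false
set_option linter.deprecated false

namespace Pool.Agent.TH361.MP

open MeasureTheory Set Filter Topology
open scoped ENNReal Pointwise

section

/-- the Gamma integral -/
lemma gam (n : ℕ) {r : ℝ} (hr : 0 < r) :
    ∫⁻ s in Ioi (0:ℝ), ENNReal.ofReal (s ^ n * Real.exp (-(r * s))) =
      ENNReal.ofReal (n.factorial / r ^ (n + 1)) := by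
  have h1 : ∫ s in Ioi (0:ℝ), s ^ n * Real.exp (-(r * s)) = n.factorial / r ^ (n + 1) := by
    have h2 := Real.integral_rpow_mul_exp_neg_mul_Ioi (a := (n:ℝ) + 1) (r := r)
      (by positivity) hr
    have h3 : ∫ s in Ioi (0:ℝ), s ^ n * Real.exp (-(r * s)) =
        ∫ s in Ioi (0:ℝ), s ^ ((n:ℝ) + 1 - 1) * Real.exp (-(r * s)) := by
      refine setIntegral_congr_fun measurableSet_Ioi fun s _ => ?_
      simp only [add_sub_cancel_right, Real.rpow_natCast]
    rw [h3, h2, Real.Gamma_nat_eq_factorial]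
    rw [← Nat.cast_one (R := ℝ), ← Nat.cast_add, Real.rpow_natCast, Nat.cast_one, one_div,
      inv_pow]
    field_simp
  rw [← h1, ofReal_integral_eq_lintegral_ofReal]
  · by_contra hcon
    have := integral_undef hcon
    rw [h1] at this
    have hp : (0:ℝ) < n.factorial / r ^ (n + 1) := by positivity
    linarith
  · refine (ae_restrict_iff' measurableSet_Ioi).2 (Eventually.of_forall fun s hs => ?_)
    have : (0:ℝ) < s := hs
    positivity

variable {E : Type*} [NormedAddCommGroup E] [NormedSpace ℝ E] [FiniteDimensional ℝ E]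
  [MeasurableSpace E] [BorelSpace E] {N : E → ℝ}
  (ν : Measure E) [ν.IsAddHaarMeasure]

lemma ball_closed (hN : ANorm N) : IsClosed {y : E | N y ≤ 1} :=
  isClosed_le hN.cont continuous_const

lemma ball_compact (hN : ANorm N) : IsCompact {y : E | N y ≤ 1} :=
  Metric.isCompact_of_isClosed_isBounded (ball_closed hN) hN.bdd

lemma slice_int (hN : ANorm N) (w : E × ℝ →L[ℝ] ℝ) {s : ℝ} (hs : 0 < s) :
    ∫⁻ x, hh N w (x, s) ∂ν = ENNReal.ofReal (s ^ Module.finrank ℝ E) *
      ∫⁻ y in {y | N y ≤ 1}, ENNReal.ofReal (Real.exp (-(s * w (y, 1)))) ∂ν := by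
  have hm : Measurable fun x : E => hh N w (x, s) :=
    (hh_meas hN w).comp (by fun_prop)
  have h1 := lintegral_smul_arg ν hm hs
  have h2 : ∀ x : E, hh N w (s • x, s) =
      {y : E | N y ≤ 1}.indicator (fun y => ENNReal.ofReal (Real.exp (-(s * w (y, 1))))) x := by
    intro x
    have e1 : ((s • x, s) : E × ℝ) = s • ((x, 1) : E × ℝ) := by simp
    rw [e1]
    unfold hh
    by_cases hx : N x ≤ 1
    · have h3 : ((x, 1) : E × ℝ) ∈ Co N := hx
      have h4 : x ∈ {y : E | N y ≤ 1} := hx
      rw [indicator_of_mem (Co_smul hN h3 hs.le), indicator_of_mem h4, map_smul, smul_eq_mul]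
    · have h3 : ((x, 1) : E × ℝ) ∉ Co N := hx
      have h4 : x ∉ {y : E | N y ≤ 1} := hx
      rw [indicator_of_notMem (fun h => h3 ((Co_smul_iff hN hs).1 h)), indicator_of_notMem h4]
  simp_rw [h2] at h1
  rw [lintegral_indicator (ball_closed hN).measurableSet] at h1
  rw [h1, ← mul_assoc, ← ENNReal.ofReal_mul (by positivity), mul_inv_cancel₀ (by positivity),
    ENNReal.ofReal_one, one_mul]

lemma int_hh_eq (hN : ANorm N) (w : E × ℝ →L[ℝ] ℝ) :
    ∫⁻ p, hh N w p ∂(ν.prod volume) = ∫⁻ s in Ioi (0:ℝ), ENNReal.ofReal (s ^ Module.finrank ℝ E) *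
      ∫⁻ y in {y | N y ≤ 1}, ENNReal.ofReal (Real.exp (-(s * w (y, 1)))) ∂ν := by
  rw [lintegral_prod_symm' _ (hh_meas hN w)]
  have h1 : ∀ s : ℝ, ∫⁻ x, hh N w (x, s) ∂ν =
      (Ici (0:ℝ)).indicator (fun s => ∫⁻ x, hh N w (x, s) ∂ν) s := by
    intro s
    by_cases hs : 0 ≤ s
    · rw [indicator_of_mem (by exact hs)]
    · rw [indicator_of_notMem (by exact hs)]
      have : ∀ x, hh N w (x, s) = 0 := by
        intro x
        unfold hh
        rw [indicator_of_notMem]
        intro h
        exact hs (Co_snd hN h)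
      simp [this]
  calc ∫⁻ s, ∫⁻ x, hh N w (x, s) ∂ν = ∫⁻ s in Ici (0:ℝ), ∫⁻ x, hh N w (x, s) ∂ν := by
        rw [lintegral_congr h1, lintegral_indicator measurableSet_Ici]
    _ = ∫⁻ s in Ioi (0:ℝ), ∫⁻ x, hh N w (x, s) ∂ν := setLIntegral_congr Ioi_ae_eq_Ici.symm
    _ = _ := by
        refine setLIntegral_congr_fun measurableSet_Ioi fun s hs => ?_
        exact slice_int ν hN w hs

lemma slice_lower (hN : ANorm N) (w : E × ℝ →L[ℝ] ℝ) {s : ℝ} (hs : 0 < s)
    (hc : ∫ y in {y | N y ≤ 1}, w (y, 0) ∂ν = 0) :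
    ENNReal.ofReal (Real.exp (-(w (0, 1) * s))) * ν {y | N y ≤ 1} ≤
      ∫⁻ y in {y | N y ≤ 1}, ENNReal.ofReal (Real.exp (-(s * w (y, 1)))) ∂ν := by
  set K : Set E := {y | N y ≤ 1} with hK
  have hKc : IsCompact K := ball_compact hN
  have hKf : ν K ≠ ∞ := hKc.measure_lt_top.ne
  have hwc : Continuous fun y : E => w (y, 1) := by fun_prop
  have hw0 : Continuous fun y : E => w (y, 0) := by fun_prop
  have hi1 : IntegrableOn (fun y : E => Real.exp (-(s * w (y, 1)))) K ν :=
    (by fun_prop : Continuous fun y : E => Real.exp (-(s * w (y, 1)))).continuousOn.integrableOn_compact hKc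
  have hi2 : IntegrableOn (fun y : E => w (y, 0)) K ν := hw0.continuousOn.integrableOn_compact hKc
  have hi3 : IntegrableOn (fun _ : E => (1:ℝ)) K ν := integrableOn_const hKf
  rw [← ofReal_integral_eq_lintegral_ofReal hi1
    (Eventually.of_forall fun y => (Real.exp_pos _).le)]
  have h1 : ∫ y in K, Real.exp (-(w (0, 1) * s)) * (1 - s * w (y, 0)) ∂ν ≤
      ∫ y in K, Real.exp (-(s * w (y, 1))) ∂ν := by
    refine setIntegral_mono ((hi3.sub (hi2.const_mul s)).const_mul _) hi1 fun y => ?_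
    have e1 : w (y, 1) = w (y, 0) + w (0, 1) := by rw [← map_add]; simp
    have e2 : Real.exp (-(s * w (y, 1))) =
        Real.exp (-(w (0, 1) * s)) * Real.exp (-(s * w (y, 0))) := by
      rw [← Real.exp_add, e1]; congr 1; ring
    simp only
    rw [e2]
    have h3 := Real.add_one_le_exp (-(s * w (y, 0)))
    have h4 := Real.exp_pos (-(w (0, 1) * s))
    nlinarith
  have h2 : ∫ y in K, Real.exp (-(w (0, 1) * s)) * (1 - s * w (y, 0)) ∂ν =
      Real.exp (-(w (0, 1) * s)) * (ν K).toReal := by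
    rw [integral_const_mul, integral_sub hi3 (hi2.const_mul s), integral_const_mul, hc]
    simp [Measure.real]
  rw [h2] at h1
  calc ENNReal.ofReal (Real.exp (-(w (0, 1) * s))) * ν K
      = ENNReal.ofReal (Real.exp (-(w (0, 1) * s)) * (ν K).toReal) := by
        rw [ENNReal.ofReal_mul (Real.exp_pos _).le, ENNReal.ofReal_toReal hKf]
    _ ≤ _ := ENNReal.ofReal_le_ofReal h1

/-- lower bound for `∫_C exp (-w)` -/
theorem Z_lower (hN : ANorm N) (w : E × ℝ →L[ℝ] ℝ) (hα : 0 < w (0, 1))
    (hc : ∫ y in {y | N y ≤ 1}, w (y, 0) ∂ν = 0) :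
    ENNReal.ofReal ((Module.finrank ℝ E).factorial / w (0, 1) ^ (Module.finrank ℝ E + 1)) *
      ν {y | N y ≤ 1} ≤ ∫⁻ p, hh N w p ∂(ν.prod volume) := by
  rw [int_hh_eq ν hN w, ← gam _ hα]
  have hmeas : Measurable fun s : ℝ => ENNReal.ofReal (s ^ Module.finrank ℝ E *
      Real.exp (-(w (0, 1) * s))) := by fun_prop
  rw [← lintegral_mul_const _ hmeas]
  refine setLIntegral_mono' measurableSet_Ioi fun s hs => ?_
  have hs' : (0:ℝ) < s := hs
  rw [ENNReal.ofReal_mul (by positivity), mul_assoc]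
  exact mul_le_mul' le_rfl (slice_lower ν hN w hs' hc)

/-- finiteness of `∫_C exp (-w)` -/
theorem Z_finite (hN : ANorm N) (w : E × ℝ →L[ℝ] ℝ) {ε : ℝ} (hε : 0 < ε)
    (hw : ∀ p ∈ Co N, ε * p.2 ≤ w p) : ∫⁻ p, hh N w p ∂(ν.prod volume) ≠ ∞ := by
  set w' : E × ℝ →L[ℝ] ℝ := ε • ContinuousLinearMap.snd ℝ E ℝ with hw'
  have h1 : ∀ p, hh N w p ≤ hh N w' p := by
    intro p
    unfold hh
    by_cases hp : p ∈ Co N
    · rw [indicator_of_mem hp, indicator_of_mem hp]
      refine ENNReal.ofReal_le_ofReal (Real.exp_le_exp.2 (neg_le_neg ?_))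
      simpa [hw'] using hw p hp
    · rw [indicator_of_notMem hp, indicator_of_notMem hp]
  refine ne_top_of_le_ne_top ?_ (lintegral_mono h1)
  rw [int_hh_eq ν hN w']
  have h2 : ∀ s : ℝ, 0 < s → ENNReal.ofReal (s ^ Module.finrank ℝ E) *
      ∫⁻ y in {y | N y ≤ 1}, ENNReal.ofReal (Real.exp (-(s * w' (y, 1)))) ∂ν =
      ENNReal.ofReal (s ^ Module.finrank ℝ E * Real.exp (-(ε * s))) * ν {y | N y ≤ 1} := by
    intro s hs
    have e1 : ∀ y : E, w' (y, 1) = ε := by intro y; simp [hw']
    simp_rw [e1]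
    rw [setLIntegral_const, ENNReal.ofReal_mul (by positivity), mul_assoc, mul_comm s ε]
  rw [setLIntegral_congr_fun measurableSet_Ioi fun s hs => h2 s hs]
  have hmeas : Measurable fun s : ℝ => ENNReal.ofReal (s ^ Module.finrank ℝ E *
      Real.exp (-(ε * s))) := by fun_prop
  rw [lintegral_mul_const _ hmeas, gam _ hε]
  exact ENNReal.mul_ne_top ENNReal.ofReal_ne_top (ball_compact hN).measure_lt_top.ne

/-- upper bound for `vol (C ∩ (e - C))` -/
theorem VV_upper (hN : ANorm N) : VV (ν.prod volume) N (0, 1) ≤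
    ENNReal.ofReal ((1/2) ^ Module.finrank ℝ E) * ν {x | N x ≤ 1 ∧ N (-x) ≤ 1} := by
  set B : Set E := {x | N x ≤ 1/2 ∧ N (-x) ≤ 1/2} with hB
  have hcn : Continuous fun x : E => N (-x) := hN.cont.comp continuous_neg
  have hBc : IsClosed B := (isClosed_le hN.cont continuous_const).inter
    (isClosed_le hcn continuous_const)
  have hBv : ν B = ENNReal.ofReal ((1/2) ^ Module.finrank ℝ E) *
      ν {x | N x ≤ 1 ∧ N (-x) ≤ 1} := by
    have e1 : B = (1/2 : ℝ) • {x : E | N x ≤ 1 ∧ N (-x) ≤ 1} := by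
      ext x
      rw [mem_smul_set_iff_inv_smul_mem₀ (by norm_num), hB, mem_setOf_eq, mem_setOf_eq,
        ← smul_neg, hN.smul _ _ (by norm_num), hN.smul _ _ (by norm_num)]
      constructor
      · rintro ⟨h1, h2⟩; constructor <;> norm_num <;> linarith
      · rintro ⟨h1, h2⟩; norm_num at h1 h2; constructor <;> linarith
    rw [e1, Measure.addHaar_smul, abs_of_pos (by positivity)]
  rw [VV_def, Measure.prod_apply_symm (OI_meas hN _)]
  have hsl : ∀ s : ℝ, ν ((fun x => (x, s)) ⁻¹' OI N ((0, 1) : E × ℝ)) ≤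
      (Icc (0:ℝ) 1).indicator (fun _ => ν B) s := by
    intro s
    set A : Set E := (fun x => (x, s)) ⁻¹' OI N ((0, 1) : E × ℝ) with hA
    have hmem : ∀ x, x ∈ A ↔ N x ≤ s ∧ N (-x) ≤ 1 - s := by
      intro x
      simp [hA, OI, Co]
    have hAm : MeasurableSet A := (by fun_prop : Measurable fun x : E => (x, s)) (OI_meas hN _)
    by_cases hs : s ∈ Icc (0:ℝ) 1
    · rw [indicator_of_mem hs]
      have hA'm : MeasurableSet (-A) := hAm.neg
      have hPL := Pool.Agent.H212R2.KLS.PL ν (1/2) (by norm_num) (by norm_num) (A.indicator 1)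
        ((-A).indicator 1) (B.indicator 1)
        (measurable_one.indicator hAm) (measurable_one.indicator hA'm)
        (measurable_one.indicator hBc.measurableSet) (by
          intro x y
          by_cases hx : x ∈ A
          · by_cases hy : y ∈ -A
            · have hm : (1 - (1/2 : ℝ)) • x + (1/2 : ℝ) • y ∈ B := by
                have h1 := (hmem x).1 hx
                have h2 := (hmem (-y)).1 (Set.mem_neg.1 hy)
                rw [neg_neg] at h2
                have e0 : (1 - (1/2 : ℝ)) = 1/2 := by norm_num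
                rw [e0]
                constructor
                · calc N ((1/2:ℝ) • x + (1/2:ℝ) • y) ≤ N ((1/2:ℝ) • x) + N ((1/2:ℝ) • y) :=
                        hN.add _ _
                    _ = (1/2) * N x + (1/2) * N y := by
                        rw [hN.smul _ _ (by norm_num), hN.smul _ _ (by norm_num)]
                    _ ≤ 1/2 := by linarith [h1.1, h2.2]
                · calc N (-((1/2:ℝ) • x + (1/2:ℝ) • y))
                      = N ((1/2:ℝ) • (-x) + (1/2:ℝ) • (-y)) := by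
                        congr 1; rw [smul_neg, smul_neg]; abel
                    _ ≤ N ((1/2:ℝ) • (-x)) + N ((1/2:ℝ) • (-y)) := hN.add _ _
                    _ = (1/2) * N (-x) + (1/2) * N (-y) := by
                        rw [hN.smul _ _ (by norm_num), hN.smul _ _ (by norm_num)]
                    _ ≤ 1/2 := by linarith [h1.2, h2.1]
              rw [indicator_of_mem hx, indicator_of_mem hy, indicator_of_mem hm]
              simp
            · rw [indicator_of_notMem hy, ENNReal.zero_rpow_of_pos (by norm_num), mul_zero]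
              exact zero_le
          · rw [indicator_of_notMem hx, ENNReal.zero_rpow_of_pos (by norm_num), zero_mul]
            exact zero_le)
      rw [lintegral_indicator_one hAm, lintegral_indicator_one hA'm,
        lintegral_indicator_one hBc.measurableSet, Measure.measure_neg] at hPL
      have e1 : ν A ^ (1 - (1/2:ℝ)) * ν A ^ (1/2:ℝ) = ν A := by
        rw [← ENNReal.rpow_add_of_nonneg _ _ (by norm_num) (by norm_num)]
        norm_num
      rwa [e1] at hPL
    · have : A = ∅ := by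
        ext x
        rw [hmem]
        simp only [mem_empty_iff_false, iff_false]
        rintro ⟨h1, h2⟩
        exact hs ⟨(hN.nonneg x).trans h1, by linarith [hN.nonneg (-x)]⟩
      rw [this, measure_empty]
      exact zero_le
  calc ∫⁻ s, ν ((fun x => (x, s)) ⁻¹' OI N ((0, 1) : E × ℝ))
      ≤ ∫⁻ s, (Icc (0:ℝ) 1).indicator (fun _ => ν B) s := lintegral_mono hsl
    _ = ν B := by
        rw [lintegral_indicator_const measurableSet_Icc, Real.volume_Icc]
        simp
    _ = _ := hBv

/-- the combined inequality, before the limit -/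
theorem main_eps (hN : ANorm N) (hc : ∀ f : E →L[ℝ] ℝ, ∫ y in {y | N y ≤ 1}, f y ∂ν = 0)
    {ε : ℝ} (hε : 0 < ε) :
    ENNReal.ofReal ((Module.finrank ℝ E).factorial / (1 + ε) ^ (Module.finrank ℝ E + 1)) *
      ν {y | N y ≤ 1} ≤
    ENNReal.ofReal ((1/2) ^ Module.finrank ℝ E) * ν {x | N x ≤ 1 ∧ N (-x) ≤ 1} *
      ENNReal.ofReal ((27 * (Module.finrank ℝ E + 1 : ℕ) / (8 * Real.exp 1)) ^
        (Module.finrank ℝ E + 1)) := by
  obtain ⟨w, hw1, hw2, hw3⟩ := exists_functional' (ν.prod volume) hN hε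
  have h1 := Z_lower ν hN w (by rw [hw2]; linarith) (by
    have := hc (w.comp (ContinuousLinearMap.inl ℝ E ℝ))
    simpa using this)
  have h2 := key (ν.prod volume) hN w
    (fun p hp => (mul_nonneg hε.le (Co_snd hN hp)).trans (hw1 p hp)) _ hw3
    (Z_finite ν hN w hε hw1)
  have hd : Module.finrank ℝ (E × ℝ) = Module.finrank ℝ E + 1 := by
    rw [Module.finrank_prod, Module.finrank_self]
  rw [hd] at h2
  rw [hw2] at h1
  refine (h1.trans h2).trans (mul_le_mul' (VV_upper ν hN) le_rfl)

end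

end Pool.Agent.TH361.MP
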