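import Mathlib
import Pool.Agent.TH361.MP.D

/-!
# `vol (K ∩ -K)` for bodies with centroid `0`
-/

set_option autoImplicit false
set_option linter.unusedSectionVars false
set_option linter.deprecated false

namespace Pool.Agent.TH361.MP

open MeasureTheory Set Filter Topology
open scoped ENNReal Pointwise

section

variable {E : Type*} [NormedAddCommGroup E] [NormedSpace ℝ E] [FiniteDimensional ℝ E]
  [MeasurableSpace E] [BorelSpace E] {N : E → ℝ}
  (ν : Measure E) [ν.IsAddHaarMeasure]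

theorem main_lim (hN : ANorm N) (hc : ∀ f : E →L[ℝ] ℝ, ∫ y in {y | N y ≤ 1}, f y ∂ν = 0) :
    ENNReal.ofReal (Module.finrank ℝ E).factorial * ν {y | N y ≤ 1} ≤
    ENNReal.ofReal ((1/2) ^ Module.finrank ℝ E) * ν {x | N x ≤ 1 ∧ N (-x) ≤ 1} *
      ENNReal.ofReal ((27 * (Module.finrank ℝ E + 1 : ℕ) / (8 * Real.exp 1)) ^
        (Module.finrank ℝ E + 1)) := by
  set n := Module.finrank ℝ E with hn
  have hK : ν {y | N y ≤ 1} ≠ ∞ := (ball_compact hN).measure_lt_top.ne
  have h1 : Tendsto (fun ε : ℝ => (n.factorial : ℝ) / (1 + ε) ^ (n + 1)) (𝓝[>] 0)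
      (𝓝 (n.factorial : ℝ)) := by
    have h2 : ContinuousAt (fun ε : ℝ => (n.factorial : ℝ) / (1 + ε) ^ (n + 1)) 0 := by
      refine ContinuousAt.div continuousAt_const (by fun_prop) (by simp)
    have h3 := h2.tendsto
    simp only [add_zero, one_pow, div_one] at h3
    exact h3.mono_left nhdsWithin_le_nhds
  have h2 : Tendsto (fun ε : ℝ => ENNReal.ofReal ((n.factorial : ℝ) / (1 + ε) ^ (n + 1)) *
      ν {y | N y ≤ 1}) (𝓝[>] 0) (𝓝 (ENNReal.ofReal (n.factorial : ℝ) * ν {y | N y ≤ 1})) :=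
    ENNReal.Tendsto.mul_const (ENNReal.tendsto_ofReal h1) (Or.inr hK)
  refine le_of_tendsto h2 ?_
  filter_upwards [self_mem_nhdsWithin] with ε hε
  exact main_eps ν hN hc hε

end

section

variable {E : Type*} [NormedAddCommGroup E] [NormedSpace ℝ E] [FiniteDimensional ℝ E]
  [MeasurableSpace E] [BorelSpace E]
  (ν : Measure E) [ν.IsAddHaarMeasure]

/-- the centroid is an interior point -/
lemma zero_mem_interior {K : Set E} (hK : IsCompact K) (hc : Convex ℝ K)
    (hi : (interior K).Nonempty) (h0 : ∫ x in K, x ∂ν = 0) : (0 : E) ∈ interior K := by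
  by_contra hcon
  obtain ⟨f, hf⟩ := geometric_hahn_banach_open_point hc.interior isOpen_interior hcon
  rw [map_zero] at hf
  have hcl : ∀ x ∈ K, f x ≤ 0 := by
    intro x hx
    have h1 : x ∈ closure (interior K) := by
      rw [hc.closure_interior_eq_closure_of_nonempty_interior hi]
      exact subset_closure hx
    have h2 : closure (interior K) ⊆ {x | f x ≤ 0} :=
      closure_minimal (fun x hx => (hf x hx).le) (isClosed_le f.continuous continuous_const)
    exact h2 h1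
  have hfi : IntegrableOn (fun x => f x) K ν := f.continuous.continuousOn.integrableOn_compact hK
  have hid : IntegrableOn (fun x : E => x) K ν :=
    continuous_id.continuousOn.integrableOn_compact hK
  have h1 : ∫ x in K, f x ∂ν = 0 := by
    rw [ContinuousLinearMap.integral_comp_comm f hid, h0, map_zero]
  have h2 : ∫ x in K, -f x ∂ν = 0 := by rw [integral_neg, h1, neg_zero]
  have h3 : 0 ≤ᵐ[ν.restrict K] fun x => -f x :=
    (ae_restrict_iff' hK.measurableSet).2 (Eventually.of_forall fun x hx => by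
      simp only [Pi.zero_apply]; linarith [hcl x hx])
  rw [integral_eq_zero_iff_of_nonneg_ae h3 hfi.neg] at h2
  have h4 : ν.restrict K (interior K) = 0 := by
    refine measure_mono_null ?_ (ae_iff.1 h2)
    intro x hx
    simp only [Pi.zero_apply, mem_setOf_eq]
    have := hf x hx
    intro h; linarith
  rw [Measure.restrict_apply isOpen_interior.measurableSet,
    inter_eq_left.2 interior_subset] at h4
  exact (isOpen_interior.measure_pos ν hi).ne' h4

lemma gauge_anorm {K : Set E} (hK : IsCompact K) (hc : Convex ℝ K)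
    (h0 : (0 : E) ∈ interior K) : ANorm (gauge K) ∧ {x | gauge K x ≤ 1} = K := by
  have hn : K ∈ 𝓝 (0 : E) := mem_interior_iff_mem_nhds.1 h0
  have he : {x | gauge K x ≤ 1} = K := by
    ext x
    rw [mem_setOf_eq, gauge_le_one_iff_mem_closure hc hn, hK.isClosed.closure_eq]
  refine ⟨⟨fun x => gauge_nonneg x, fun c x h => ?_, fun x y => ?_, continuous_gauge hc hn, ?_⟩, he⟩
  · rw [gauge_smul_of_nonneg h, smul_eq_mul]
  · exact gauge_add_le hc (absorbent_nhds_zero hn) x y
  · rw [he]; exact hK.isBounded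

/-- the volume inequality -/
theorem main_body {K : Set E} (hK : IsCompact K) (hc : Convex ℝ K)
    (hi : (interior K).Nonempty) (h0 : ∫ x in K, x ∂ν = 0) :
    (2:ℝ) ^ Module.finrank ℝ E * (Module.finrank ℝ E).factorial *
      (8 * Real.exp 1 / (27 * (Module.finrank ℝ E + 1 : ℕ))) ^ (Module.finrank ℝ E + 1) *
      ν.real K ≤ ν.real {x | x ∈ K ∧ -x ∈ K} := by
  obtain ⟨hN, he⟩ := gauge_anorm hK hc (zero_mem_interior ν hK hc hi h0)
  have hid : IntegrableOn (fun x : E => x) K ν :=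
    continuous_id.continuousOn.integrableOn_compact hK
  have h1 := main_lim ν hN (by
    intro f
    rw [he, ContinuousLinearMap.integral_comp_comm f hid, h0, map_zero])
  set n := Module.finrank ℝ E with hn
  have he2 : {x | gauge K x ≤ 1 ∧ gauge K (-x) ≤ 1} = {x | x ∈ K ∧ -x ∈ K} := by
    ext x
    have e1 : ∀ y, gauge K y ≤ 1 ↔ y ∈ K := fun y => by
      rw [← mem_setOf_eq (p := fun y => gauge K y ≤ 1), he]
    simp only [mem_setOf_eq, e1]
  rw [he, he2] at h1
  have hf1 : ν K ≠ ∞ := hK.measure_lt_top.ne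
  have hf2 : ν {x | x ∈ K ∧ -x ∈ K} ≠ ∞ :=
    ne_top_of_le_ne_top hf1 (measure_mono fun x hx => hx.1)
  set c : ℝ := (27 * (n + 1 : ℕ) / (8 * Real.exp 1)) ^ (n + 1) with hc'
  have hc0 : 0 < c := by positivity
  have h2 := ENNReal.toReal_mono (ENNReal.mul_ne_top (ENNReal.mul_ne_top ENNReal.ofReal_ne_top
    hf2) ENNReal.ofReal_ne_top) h1
  rw [ENNReal.toReal_mul, ENNReal.toReal_mul, ENNReal.toReal_mul,
    ENNReal.toReal_ofReal (by positivity), ENNReal.toReal_ofReal (by positivity),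
    ENNReal.toReal_ofReal hc0.le] at h2
  change (n.factorial : ℝ) * ν.real K ≤ (1/2) ^ n * ν.real {x | x ∈ K ∧ -x ∈ K} * c at h2
  have h3 : (8 * Real.exp 1 / (27 * (n + 1 : ℕ))) ^ (n + 1) = c⁻¹ := by
    rw [hc', ← inv_pow]; congr 1; field_simp
  rw [h3]
  calc (2:ℝ) ^ n * n.factorial * c⁻¹ * ν.real K = 2 ^ n * c⁻¹ * (n.factorial * ν.real K) := by ring
    _ ≤ 2 ^ n * c⁻¹ * ((1/2) ^ n * ν.real {x | x ∈ K ∧ -x ∈ K} * c) := by gcongr
    _ = (2 ^ n * (1/2) ^ n) * (c⁻¹ * c) * ν.real {x | x ∈ K ∧ -x ∈ K} := by ring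
    _ = _ := by
      rw [inv_mul_cancel₀ hc0.ne', ← mul_pow]
      norm_num

end

/-- Stirling -/
lemma stirling_bound (n : ℕ) :
    √(Real.pi / (2 * (n + 1))) * (16 / 27) ^ (n + 1) ≤
      (2:ℝ) ^ n * n.factorial * (8 * Real.exp 1 / (27 * (n + 1 : ℕ))) ^ (n + 1) := by
  have h1 := Stirling.le_factorial_stirling (n + 1)
  rw [Nat.factorial_succ] at h1
  push_cast at h1 ⊢
  have hn : (0:ℝ) < n + 1 := by positivity
  set x : ℝ := (((n:ℝ) + 1) / Real.exp 1) ^ (n + 1) with hx
  have hx0 : 0 < x := by positivity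
  have e1 : (8 * Real.exp 1 / (27 * ((n:ℝ) + 1))) ^ (n + 1) = (8 / 27) ^ (n + 1) * x⁻¹ := by
    rw [hx, ← inv_pow, ← mul_pow]; congr 1; field_simp
  have e2 : √(Real.pi / (2 * ((n:ℝ) + 1))) = √(2 * Real.pi * (n + 1)) / (2 * (n + 1)) := by
    rw [eq_div_iff (by positivity)]
    rw [← Real.sqrt_sq (by positivity : (0:ℝ) ≤ 2 * (n + 1)), ← Real.sqrt_mul (by positivity)]
    congr 1
    rw [Real.sqrt_sq (by positivity)]
    field_simp
  have h2 : √(2 * Real.pi * (n + 1)) ≤ (n + 1) * n.factorial * x⁻¹ := by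
    rw [← div_eq_mul_inv, le_div_iff₀ hx0]; exact h1
  rw [e1, e2]
  have e3 : (16 / 27 : ℝ) ^ (n + 1) = 2 * 2 ^ n * (8 / 27) ^ (n + 1) := by
    rw [← pow_succ', ← mul_pow]; norm_num
  rw [e3]
  calc √(2 * Real.pi * (n + 1)) / (2 * (n + 1)) * (2 * 2 ^ n * (8 / 27) ^ (n + 1))
      = √(2 * Real.pi * (n + 1)) * (2 ^ n * (8 / 27) ^ (n + 1) / (n + 1)) := by field_simp
    _ ≤ ((n + 1) * n.factorial * x⁻¹) * (2 ^ n * (8 / 27) ^ (n + 1) / (n + 1)) := by gcongr
    _ = _ := by field_simp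

end Pool.Agent.TH361.MP
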